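import Mathlib
import Pool.Agent.V8H26.PK.Tr

/-!
# The prime twists of every cubic twist over `K = ℚ(√-3)`: Selmer groups and the `3`-part of the formula

`K` is the field of third roots of unity, `E_D : y² + D y = x³` for `D` in `𝓞 K`, and `E_{D ρ}` is the cubic
twist of `E_D` by `ρ`. Let `D` be ANY cube-free element of `𝓞 K` that is `1` modulo `3`, with `ω`
different prime divisors, and let `ρ` run through the ADMISSIBLE primary primes (a primary prime is a prime
element `1` modulo `3`): `ρ` does not divide `D`, and the norm of `D ρ` is not `1` modulo `9`.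

* For every such `ρ`: the `L`-series of `E_{D ρ}/K` is continued to an entire function, and the quotient of
  `L(E_{D ρ}/K, 1)` and of the right-hand side of the conjecture (for rank `0`) without the order of `Ш` is
  integral at every valuation of `ℂ` above `3`, and a unit there if and only if `E_{D ρ}(K)` is finite and
  `Ш(E_{D ρ}/K)[3^∞] = 0`; then `L(E_{D ρ}/K, 1) ≠ 0` (this is `Law`). The Selmer group of the endomorphism
  `√-3` of `E_{D ρ}` over `K` has order `3 ^ (r + 1)` for some `r`, the rank of `E_{D ρ}(K)` is at most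
  `2 r`, and `r = 0` if and only if `E_{D ρ}(K)` is finite and `Ш(E_{D ρ}/K)[3^∞] = 0`.
* THE LAW FOR A FIXED `D`: for every `r` the set of the admissible `ρ` with Selmer group of order
  `3 ^ (r + 1)` has a natural density in the set of all primary primes, which is `2/3 · c_r / 3^ω` with
  integers `c_r ≥ 0`, `c_0 + c_1 + ⋯ + c_ω = 3^ω`, and `c_0 ≥ 2^ω`. So for EVERY `D` the `3`-part of the
  conjecture of Birch and Swinnerton-Dyer holds, with rank `0` and `L(1) ≠ 0`, for the twists of `E_D` by a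
  positive proportion of all primes, at least `(2/3)^ω` of the admissible ones (which have density `2/3`).
-/

set_option autoImplicit false

namespace Pool.Agent.Results.MP_9ab903_nt.PrimeTwistsThreePart

open NumberField Pool.Agent.V8H26.PK.Tr

open Pool.Agent.V8H26.PK in
theorem result (K : Type) [Field K] [NumberField K] [IsCyclotomicExtension {3} ℚ K] :
    (∀ D ρ : 𝓞 K, IsBase D → Admissible D ρ → Law (D * ρ) ∧ ∃ r : ℕ,
      (Sel ((D * ρ : 𝓞 K) : K)).ncard = 3 ^ (r + 1) ∧ rank ((D * ρ : 𝓞 K) : K) ≤ 2 * r ∧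
        (r = 0 ↔ FiniteAndTrivial (D * ρ))) ∧
    (∀ D : 𝓞 K, IsBase D → ∃ c : ℕ → ℕ,
      ∑ r ∈ Finset.range (omega D + 1), c r = 3 ^ omega D ∧ 2 ^ omega D ≤ c 0 ∧
      HasDensity (Admissible D) (2 / 3) ∧
      ∀ r : ℕ, HasDensity (fun ρ => Admissible D ρ ∧ (Sel ((D * ρ : 𝓞 K) : K)).ncard = 3 ^ (r + 1))
        (2 / 3 * ((c r : ℝ) / 3 ^ omega D))) := by
  obtain ⟨⟨j, hj⟩, hdisc⟩ := Pool.Agent.Y455.CTK.jex K
  have pinj : ∀ {a b : ℕ}, 3 ^ (a + 1) = 3 ^ (b + 1) → a = b := fun h => by
    have := Nat.pow_right_injective (le_refl 2 |>.trans (by norm_num : 2 ≤ 3)) h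
    omega
  constructor
  · intro D ρ hD ha
    obtain ⟨S, e, hdt, rfl⟩ := base_dt j hD
    obtain ⟨z, rfl⟩ := j.surjective ρ
    obtain ⟨m0, m1, m2, m3⟩ := main_adm j hj hdisc hdt ha
    obtain ⟨hz, hA⟩ := (adm_trans j hj hdt).1 ha
    have hk := kerV_opt hdt hz ((adm_iff hdt hz).1 hA).1
    refine ⟨m0, _, m1.trans hk, m2 _ hk.le, ?_⟩
    rw [← m3, hk]
    constructor
    · intro h
      rw [h]
      norm_num
    · intro h
      exact pinj (a := _) (b := 0) (h.trans (by norm_num))
  · intro D hD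
    obtain ⟨S, e, hdt, rfl⟩ := base_dt j hD
    have hom := omega_eq j hdt
    rw [hom]
    have hlaw : ∀ r : ℕ, HasDensity (fun ρ => Admissible (j (Pool.Agent.Y703.CT.pD (fun q : S => (q : _)) e)) ρ ∧
        (Sel ((j (Pool.Agent.Y703.CT.pD (fun q : S => (q : _)) e) * ρ : 𝓞 K) : K)).ncard = 3 ^ (r + 1))
        (2 / 3 * ((cK (fun q : S => (q : _)) e r : ℝ) / 3 ^ Fintype.card S)) := by
      intro r
      refine hasDensity_of j hj (fun z hz => ?_) (lawK hdt r)
      rw [adm_trans j hj hdt]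
      constructor
      · rintro ⟨h1, h2⟩
        exact ⟨⟨hz, h1⟩, (main_adm j hj hdisc hdt ((adm_trans j hj hdt).2 ⟨hz, h1⟩)).2.1.trans h2⟩
      · rintro ⟨h1, h2⟩
        exact ⟨h1.2, (main_adm j hj hdisc hdt ((adm_trans j hj hdt).2 h1)).2.1.symm.trans h2⟩
    refine ⟨cK (fun q : S => (q : _)) e, cK_sum _ _, cK_zero _ _, ?_, hlaw⟩
    exact hasDensity_of j hj (fun z hz => by
      rw [adm_trans j hj hdt]
      exact ⟨fun h => ⟨hz, h⟩, fun h => h.2⟩) (admK_dens hdt)

end Pool.Agent.Results.MP_9ab903_nt.PrimeTwistsThreePart
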