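import Mathlib
import Pool.Agent.V8H26.PK.Seq

/-!
# Selmer groups, ranks and the `3`-part of the formula in sequences of cubic twists over `K = ℚ(√-3)`

`K` is the field of third roots of unity and `E_N : y² + N y = x³` for `N` in `𝓞 K`. Let `m_0, m_1, m_2, …` be
ANY infinite sequence of different squarefree elements of `𝓞 K`, `1` modulo `3`, with norms `1` modulo `9`,
and let `D` run through ALL squarefree elements of `𝓞 K` that are `1` modulo `3`, with norm not `1` modulo
`9`, ordered by their norms.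

* For every `D` and `k`: `Law (D m_k)`, that is: the `L`-series of `E_{D m_k}/K` is continued to an entire
  function, and the quotient of `L(E_{D m_k}/K, 1)` and of the right-hand side of the conjecture (for rank
  `0`) without the order of `Ш` is integral at every valuation of `ℂ` above `3`, and a unit there if and
  only if `E_{D m_k}(K)` is finite and `Ш(E_{D m_k}/K)[3^∞] = 0`; then `L(1) ≠ 0`. The Selmer group of `√-3`
  on `E_{D m_k}` over `K` has order `3 ^ (r + 1)` for some `r = r_k(D)`, the rank of `E_{D m_k}(K)` is at most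
  `2 r`, and `r = 0` if and only if `E_{D m_k}(K)` is finite and `Ш[3^∞] = 0`.
* JOINT LAW: for every `n` and EVERY set `T` of vectors the proportion of the `D` with
  `(r_0(D), …, r_{n-1}(D))` in `T` tends to the measure of `T` for the product of the laws
  `law r = c / ((3 - 1) (9 - 1) ⋯ (3^r - 1))`, `c = ∏_{i ≥ 0} (1 - 3^{-(2 i + 1)})` (the law of the corank of a
  large symmetric matrix over the field with three elements).
* EMPIRICAL LAW, exponential rate: for every set `T` of numbers with measure `p`, every `n` and `ε` the set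
  of the `D` for which the frequency of the `k < n` with `r_k(D)` in `T` differs from `p` by at least `ε` has
  a relative density, which is at most `2 exp (- ε² n / 4)`. For `T = {0}`: the `3`-part of the conjecture
  holds with rank `0` and `Ш[3^∞] = 0` for the frequency `c = 0.639…` of the curves `E_{D m_k}`.
* AVERAGE RANK: the average of the numbers `min (rank E_{D m_k}(K), 2 B)` over the `k < n` is less than
  `0.809 + ε` for all `D` outside a set of upper relative density at most `2 B exp (- ε² n / (16 B²))`.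
* For every `r` and `N`, for `100 %` of the `D` at least `N` of the Selmer groups have order `3 ^ (r + 1)`.
-/

set_option autoImplicit false
set_option linter.unusedSectionVars false

open scoped Classical

namespace Pool.Agent.Results.MP_9ab903_nt.RanksInTwistSequencesK

open NumberField Filter Pool.Agent.V8H26.PK.Tr

variable {K : Type} [Field K] [NumberField K]

/-- the class: `D` squarefree, `1` modulo `3`, norm not `1` modulo `9` -/
def Class (D : 𝓞 K) : Prop :=
  (3 : 𝓞 K) ∣ D - 1 ∧ Squarefree D ∧ ¬ (9 : ℤ) ∣ Algebra.norm ℤ D - 1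

/-- the multipliers: different squarefree elements, `1` modulo `3`, with norms `1` modulo `9` -/
structure Multipliers (m : ℕ → 𝓞 K) : Prop where
  inj : Function.Injective m
  sqf : ∀ k, Squarefree (m k)
  three : ∀ k, (3 : 𝓞 K) ∣ m k - 1
  nine : ∀ k, (9 : ℤ) ∣ Algebra.norm ℤ (m k) - 1

/-- the proportion of the `D` in the class of norm at most `X` with the property `P` -/
noncomputable def proportion (P : 𝓞 K → Prop) (X : ℕ) : ℝ :=
  ({D : 𝓞 K | Algebra.norm ℤ D ≤ X ∧ Class D ∧ P D}.ncard : ℝ) /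
    ({D : 𝓞 K | Algebra.norm ℤ D ≤ X ∧ Class D}.ncard : ℝ)

/-- `c = ∏_{i ≥ 0} (1 - 3^{-(2 i + 1)})` -/
noncomputable def c : ℝ := ∏' i : ℕ, (1 - (1 / 3 : ℝ) ^ (2 * i + 1))

/-- the law of the coranks of large symmetric matrices over the field with three elements -/
noncomputable def law (r : ℕ) : ℝ := c / ∏ i ∈ Finset.range r, ((3 : ℝ) ^ (i + 1) - 1)

/-- the Selmer group of `E_N` over `K` has order `3 ^ (r + 1)` for some `r` in `T` -/
def SelIn (T : Set ℕ) (N : 𝓞 K) : Prop := ∃ r ∈ T, (Sel (N : K)).ncard = 3 ^ (r + 1)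

/-- the frequency of the `k < n` for which the Selmer group of `E_{D m_k}` has order `3 ^ (r + 1)`,
`r` in `T` -/
noncomputable def frequency (m : ℕ → 𝓞 K) (T : Set ℕ) (n : ℕ) (D : 𝓞 K) : ℝ :=
  (((Finset.range n).filter fun k => SelIn T (D * m k)).card : ℝ) / n

/-- the average over the `k < n` of the ranks of the `E_{D m_k}(K)`, truncated at `B` -/
noncomputable def averageRank (m : ℕ → 𝓞 K) (B n : ℕ) (D : 𝓞 K) : ℝ :=
  (∑ k ∈ Finset.range n, ((min (rank ((D * m k : 𝓞 K) : K)) B : ℕ) : ℝ)) / n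

section proof

open Pool.Agent.V8H26.PK
open Pool.Agent.Y692.QS (Ei nr)
open Pool.Agent.Y703.XL (cr)
open Q283.T3B (sum_cr cr_nonneg)

theorem mult {m : ℕ → 𝓞 K} (h : Multipliers m) : Mult m := ⟨h.inj, h.three, h.nine, h.sqf⟩

theorem cube_free (j : Ei ≃+* 𝓞 K) {D m : 𝓞 K} (hD : Squarefree D) (hm : Squarefree m) :
    ∀ x : 𝓞 K, x ^ 3 ∣ D * m → IsUnit x := by
  have : DecompositionMonoid (𝓞 K) := MulEquiv.decompositionMonoid j.symm
  have hpr : ∀ p : 𝓞 K, Prime p → ¬ p ^ 3 ∣ D * m := by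
    intro p hp h
    have sq : ∀ {a : 𝓞 K}, Squarefree a → ¬ p ^ 2 ∣ a := fun ha h2 =>
      hp.not_isUnit (ha p (by rw [← pow_two]; exact h2))
    by_cases h1 : p ∣ D
    · obtain ⟨D', rfl⟩ := h1
      have h2 : ¬ p ∣ D' := fun h3 => sq hD (by
        rw [pow_two]
        exact mul_dvd_mul_left p h3)
      have h4 : p ^ 2 ∣ D' * m := by
        obtain ⟨t, ht⟩ := h
        refine ⟨t, mul_left_cancel₀ hp.ne_zero ?_⟩
        linear_combination ht
      exact sq hm (hp.pow_dvd_of_dvd_mul_left 2 h2 h4)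
    · exact sq hm ((pow_dvd_pow p (by norm_num : 2 ≤ 3)).trans (hp.pow_dvd_of_dvd_mul_left 3 h1 h))
  intro x hx
  by_contra hu
  have hx0 : x ≠ 0 := by
    rintro rfl
    rw [zero_pow (by norm_num), zero_dvd_iff] at hx
    exact mul_ne_zero hD.ne_zero hm.ne_zero hx
  obtain ⟨p, hp, hpx⟩ := WfDvdMonoid.exists_irreducible_factor hu hx0
  exact hpr p hp.prime ((pow_dvd_pow_of_dvd hpx 3).trans hx)

theorem law_mul [IsCyclotomicExtension {3} ℚ K] (j : Ei ≃+* 𝓞 K) {D m : 𝓞 K} (hD : Class D)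
    (hs : Squarefree m) (h3 : (3 : 𝓞 K) ∣ m - 1) (h9 : (9 : ℤ) ∣ Algebra.norm ℤ m - 1) :
    Law (D * m) := by
  refine Pool.Agent.R419.KF.law_all ⟨?_, cube_free j hD.2.1 hs, ?_⟩
  · have e : D * m - 1 = (D - 1) * m + (m - 1) := by ring
    rw [e]
    exact dvd_add (hD.1.mul_right _) h3
  · intro h
    apply hD.2.2
    rw [map_mul] at h
    have e : Algebra.norm ℤ D - 1 = (Algebra.norm ℤ D * Algebra.norm ℤ m - 1) -
        Algebra.norm ℤ D * (Algebra.norm ℤ m - 1) := by ring
    rw [e]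
    exact dvd_sub h (h9.mul_left _)

/-- translation of the proportions -/
theorem prop_eq [IsCyclotomicExtension {3} ℚ K] (P Q : 𝓞 K → Prop)
    (h : ∀ D, Class D → (Q D ↔ P D)) (X : ℕ) :
    (((SK K X).filter fun D => Q D).card : ℝ) / ((SK K X).card : ℝ) = proportion P X := by
  unfold proportion
  rw [SK_card, SK_card']
  congr 2
  congr 1
  ext D
  exact and_congr_right fun _ => and_congr_right fun hD => h D hD

theorem selIn_iff [IsCyclotomicExtension {3} ℚ K] {m : ℕ → 𝓞 K} (hm : Mult m) {D : 𝓞 K}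
    (hD : Class D) (k : ℕ) (T : Set ℕ) : SelIn T (D * m k) ↔ rK m k D ∈ T := by
  constructor
  · rintro ⟨r, hr, h2⟩
    rw [rK_eq h2]
    exact hr
  · intro h
    exact ⟨_, h, (rK_spec hm hD k).1⟩

end proof

open Pool.Agent.V8H26.PK in
open Pool.Agent.Y703.XL (cr) in
open Q283.T3B (sum_cr cr_nonneg) in
theorem result (K : Type) [Field K] [NumberField K] [IsCyclotomicExtension {3} ℚ K]
    (m : ℕ → 𝓞 K) (hm : Multipliers m) :
    (∀ D : 𝓞 K, Class D → ∀ k, Law (D * m k) ∧ ∃ r : ℕ,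
      (Sel ((D * m k : 𝓞 K) : K)).ncard = 3 ^ (r + 1) ∧ rank ((D * m k : 𝓞 K) : K) ≤ 2 * r ∧
        (r = 0 ↔ FiniteAndTrivial (D * m k))) ∧
    (∀ (n : ℕ) (T : Set (Fin n → ℕ)), Tendsto
      (proportion fun D : 𝓞 K => ∃ r ∈ T, ∀ k : Fin n,
        (Sel ((D * m k : 𝓞 K) : K)).ncard = 3 ^ (r k + 1)) atTop (nhds (∑' r : T, ∏ k, law (r.1 k)))) ∧
    (∀ (T : Set ℕ) (n : ℕ), 0 < n → ∀ ε : ℝ, 0 < ε → ∃ l : ℝ, l ≤ 2 * Real.exp (-(ε ^ 2 * n / 4)) ∧
      Tendsto (proportion fun D : 𝓞 K => ε ≤ |frequency m T n D - ∑' r : T, law r|) atTop (nhds l)) ∧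
    (∀ B n : ℕ, 0 < B → 0 < n → ∀ ε δ : ℝ, 0 < ε → 0 < δ → ∀ᶠ X : ℕ in atTop,
      proportion (fun D : 𝓞 K => 0.809 + ε ≤ averageRank m (2 * B) n D) X ≤
        2 * B * Real.exp (-(ε ^ 2 * n / (16 * B ^ 2))) + δ) ∧
    (∀ r N : ℕ, Tendsto (proportion fun D : 𝓞 K => ∃ F : Finset ℕ, F.card = N ∧ ∀ k ∈ F,
      (Sel ((D * m k : 𝓞 K) : K)).ncard = 3 ^ (r + 1)) atTop (nhds 1)) ∧
    (∃ a : ℝ, 0 < a ∧ ∃ X₀ : ℕ, ∀ X : ℕ, X₀ ≤ X →
      a * X ≤ ({D : 𝓞 K | Algebra.norm ℤ D ≤ X ∧ Class D}.ncard : ℝ)) ∧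
    HasSum law 1 ∧ 0.639 < law 0 ∧ law 0 < 0.6391 := by
  obtain ⟨⟨j, -⟩, -⟩ := Pool.Agent.Y455.CTK.jex K
  have hs := mult hm
  have hlaw : cr = law := rfl
  have hL := law_SK hs
  obtain ⟨-, -, -, hc1, hc2⟩ := Pool.Agent.R419.KF.final3 K
  have hne := ne_SK (K := K)
  refine ⟨fun D hD k => ⟨law_mul j hD (hm.sqf k) (hm.three k) (hm.nine k), _, rK_spec hs hD k⟩,
    fun n T => ?_, fun T n hn ε hε => ?_, fun B n hB hn ε δ hε hδ => ?_, fun r N => ?_,
    low_SK (K := K), sum_cr, ?_, ?_⟩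
  · have h1 := Q283.T3B.scheffe (SK K) (fun D => fun k : Fin n => rK m k D)
      (fun r => ∏ k, cr (r k)) (Q283.T3B.sum_pi n) hne (fun r => by
        refine (hL n (fun k : Fin n => (k : ℕ)) (fun a b hab => Fin.ext hab) r).congr fun X => ?_
        congr 2
        exact Q283.Bin.fcc fun a _ => ⟨fun h => funext h, fun h k => congrFun h k⟩) T
    refine h1.congr fun X => ?_
    refine prop_eq _ _ (fun D hD => ?_) X
    constructor
    · intro h
      exact ⟨_, h, fun k => (rK_spec hs hD k).1⟩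
    · rintro ⟨r, hr, h⟩
      have e : (fun k : Fin n => rK m k D) = r := funext fun k => rK_eq (h k)
      rw [e]
      exact hr
  · obtain ⟨l, h1, h2⟩ := Q283.Bin.lln_exp (msr_bd sum_cr cr_nonneg T).1 (msr_bd sum_cr cr_nonneg T).2
      (Q283.Bin.pat_T sum_cr cr_nonneg hne hL T) n hn ε hε
    refine ⟨l, h1, h2.congr fun X => ?_⟩
    refine prop_eq _ _ (fun D hD => ?_) X
    have e : (((Finset.range n).filter fun k => rK m k D ∈ T).card : ℝ) / n =
        frequency m T n D := by
      unfold frequency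
      congr 2
      exact Q283.Bin.fcc fun k _ => (selIn_iff hs hD k T).symm
    rw [e]
    exact Iff.rfl
  · have hmean : 2 * (∑' r : ℕ, (r : ℝ) * cr r) ≤ 0.809 := by
      have h1 := mean_leK
      have h2 : Pool.Agent.Y703.XK.c9 < 0.6391 := hc2
      have h3 : (0 : ℝ) < 1 / 2 + 1 / 8 * (52 / 49) := by norm_num
      have h4 := mul_lt_mul_of_pos_left h2 h3
      have h5 : ((1 / 2 + 1 / 8 * (52 / 49)) * 0.6391 : ℝ) ≤ 0.4045 := by norm_num
      linarith
    have h1 := avgG sum_cr cr_nonneg summ_meanK hne hL (fun k D => rank ((D * m k : 𝓞 K) : K))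
      (fun X D hD k => (rK_spec hs (mem_SK.1 hD).2 k).2.1) B n hB hn hε hδ
    filter_upwards [h1] with X hX
    rw [← prop_eq _ (fun D : 𝓞 K => 0.809 + ε ≤ averageRank m (2 * B) n D) (fun D _ => Iff.rfl) X]
    refine le_trans (div_le_div_of_nonneg_right ?_ (Nat.cast_nonneg _)) hX
    rw [Nat.cast_le]
    refine Finset.card_le_card fun D hD => ?_
    rw [Finset.mem_filter] at hD ⊢
    refine ⟨hD.1, le_trans ?_ hD.2⟩
    linarith
  · have hr : 0 < ∑' s : ({r} : Set ℕ), cr s := by
      rw [tsum_singleton r cr]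
      have h1 : (0 : ℝ) < ∏ i ∈ Finset.range r, ((3 : ℝ) ^ (i + 1) - 1) := by
        refine Finset.prod_pos fun i _ => ?_
        have : (3 : ℝ) ^ 1 ≤ 3 ^ (i + 1) := pow_le_pow_right₀ (by norm_num) (by omega)
        linarith
      have h2 : (0 : ℝ) < Pool.Agent.Y703.XK.c9 := lt_trans (by norm_num) hc1
      exact div_pos h2 h1
    refine (Q283.Bin.many_T sum_cr cr_nonneg hne hL {r} hr N).congr fun X => ?_
    refine prop_eq _ _ (fun D hD => ?_) X
    refine exists_congr fun F => and_congr_right fun _ => forall_congr' fun k =>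
      forall_congr' fun _ => ?_
    rw [Set.mem_singleton_iff]
    exact (rK_iff hs hD k r).symm
  · unfold law
    rw [Finset.prod_range_zero, div_one]
    exact hc1
  · unfold law
    rw [Finset.prod_range_zero, div_one]
    exact hc2

end Pool.Agent.Results.MP_9ab903_nt.RanksInTwistSequencesK
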