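import Pool.Agent.Y699.Pos
import Pool.Agent.V8H65.GQ.Val
import Pool.Agent.V8H65.GQ.Lser
import Pool.Agent.V8H65.GQ.Fin4
import Pool.Agent.V8H65.XG.Crt
import Pool.Agent.V8H65.XG.QI

/-!
# The 2-part of the strong conjecture of Birch and Swinnerton-Dyer for the quadratic twists of
# `y² = x³ - x` over `ℚ(i)`, with the exact proportion of the twists of rank zero without 2-torsion
# in the Tate-Shafarevich group

`K` is a number field with an isomorphism `e` of the ring `ℤ[i]` of Gaussian integers with its ring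
of integers (so `K = ℚ(i)`), `D` a squarefree Gaussian integer with `D ≡ 1 mod 2 + 2i` and
`N(D) ≡ 5 mod 8`, and `E_D : y² = x³ - D² x` the quadratic twist of `y² = x³ - x` by `D`.  We
prove for every such `D`: the number `L(E_D/K, 1) √|disc K| #E_D(K)_tors² / (Ω ∏ c_v)` is integral at
every valuation of `ℂ` above `2`, and it is a unit at one (equivalently, at all) of these valuations
if and only if `E_D(K)` is finite and the 2-primary part of `Ш(E_D/K)` is trivial; and this happens for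
the proportion `∏_{i ≥ 0} (1 - 2^{-(2i+1)}) = 0.4194...` of these `D`, ordered by norm, exactly.

The congruence for the central values is from the library of helper699, the general descent by an
isogeny of degree two from the library of helper682, the lemmas on periods and valuations from the
library of helper715.  The exact law of the kernels of the matrices of quadratic residue symbols
(`Pool/Agent/V8H65/XG`) follows the projects XK and XL on cubic symbols (their authors are named in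
`Pool/Agent/V8H65/XG/Stm.lean`).
-/

set_option autoImplicit false

namespace Pool.Agent.Results.MP_9ab903_nt.TwoPartExactProportion

open NumberField IsDedekindDomain

/-- The curve `y² = x³ - D² x`. -/
noncomputable def curve {K : Type} [Field K] [NumberField K] (e : GaussianInt ≃+* 𝓞 K)
    (D : GaussianInt) : WeierstrassCurve K :=
  ⟨0, 0, 0, -(algebraMap (𝓞 K) K (e D)) ^ 2, 0⟩

open scoped Classical in
/-- The equation `E` is minimal at every finite place `v`, and `c v` is the Tamagawa number of `E` at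
`v`: the index in `E(K_v)` of the subgroup of the points of nonsingular reduction. -/
def IsTamagawa {K : Type} [Field K] [NumberField K] (E : WeierstrassCurve K)
    (c : HeightOneSpectrum (𝓞 K) → ℕ) : Prop :=
  (∀ v : HeightOneSpectrum (𝓞 K),
    (E.baseChange (v.adicCompletion K)).IsMinimal (v.adicCompletionIntegers K) ∧
    ∃ H : AddSubgroup (E.baseChange (v.adicCompletion K)).toAffine.Point,
      (∀ P, P ∈ H ↔ Pool.Agent.Y696.NonsingRed Valued.v (E.baseChange (v.adicCompletion K)) P) ∧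
      H.index = c v) ∧
  {v | c v ≠ 1}.Finite

/-- `Λ` is the lattice of periods of the differential `dx / (2y + a₁x + a₃)` of the curve `E`, embedded
in the complex numbers by `σ`. -/
def IsPeriodLattice {K : Type} [Field K] (E : WeierstrassCurve K) (σ : K →+* ℂ)
    (Λ : PeriodPair) : Prop :=
  Λ.g₂ = σ E.c₄ / 12 ∧ Λ.g₃ = σ E.c₆ / 216

/-- Twice the area of a fundamental parallelogram of the lattice. -/
noncomputable def period (Λ : PeriodPair) : ℝ := 2 * |((starRingEnd ℂ) Λ.ω₁ * Λ.ω₂).im|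

open scoped Classical in
/-- The order of the torsion subgroup of `E(K)`. -/
noncomputable def torsionOrder {K : Type} [Field K] (E : WeierstrassCurve K) : ℕ :=
  Nat.card (AddCommGroup.torsion E.toAffine.Point)

/-- The conjectural order `L(E/K, 1) √|disc K| #E(K)_tors² / (Ω ∏ c_v)` of `Ш(E/K)` (if `E(K)` is
finite), for a curve `E` over an imaginary quadratic field `K`, made from the continuation `L` of the
`L`-series, the Tamagawa numbers `c` and the lattice of periods `Λ`. -/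
noncomputable def analyticSha {K : Type} [Field K] [NumberField K] (E : WeierstrassCurve K)
    (L : ℂ → ℂ) (c : HeightOneSpectrum (𝓞 K) → ℕ) (Λ : PeriodPair) : ℂ :=
  L 1 * (Real.sqrt |(discr K : ℝ)| : ℝ) * (torsionOrder E : ℂ) ^ 2 /
    ((period Λ : ℂ) * ((∏ᶠ v, c v : ℕ) : ℂ))

/-- `E(K)` is finite and the 2-primary part of `Ш(E/K)` is trivial. -/
def TrivialAtTwo {K : Type} [Field K] [NumberField K] (E : WeierstrassCurve K) : Prop :=
  Finite E.toAffine.Point ∧
  ∀ (n : ℕ) (x : Pool.Agent.TH841.NF.D.Sha E), 2 ^ n • x = 0 → x = 0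

/-- For a curve `E` over an imaginary quadratic field `K`: `E(K)_tors` has four elements, the
`L`-series of `E` has an entire continuation, and the conjectural order of `Ш(E/K)` is integral at
every valuation `w` of the field of complex numbers with `w 2 < 1`, and it is a unit at `w` if
and only if `E(K)` is finite and the 2-primary part of `Ш(E/K)` is trivial. -/
def TwoPart {K : Type} [Field K] [NumberField K] (E : WeierstrassCurve K) : Prop :=
  torsionOrder E = 4 ∧
  ∃ (L : ℂ → ℂ) (c : HeightOneSpectrum (𝓞 K) → ℕ),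
    Differentiable ℂ L ∧
    (∀ s : ℂ, 3 / 2 < s.re →
      LSeriesSummable ((fun n : ℤ => (n : ℂ)) ∘ E.LFunction) s ∧ L s = E.LSeries s) ∧
    IsTamagawa E c ∧
    ∀ σ : K →+* ℂ, (∃ Λ : PeriodPair, IsPeriodLattice E σ Λ) ∧
      ∀ Λ : PeriodPair, IsPeriodLattice E σ Λ →
        ∀ (Γ : Type) [LinearOrderedCommGroupWithZero Γ] (w : Valuation ℂ Γ), w 2 < 1 →
          w (analyticSha E L c Λ) ≤ 1 ∧ (w (analyticSha E L c Λ) = 1 ↔ TrivialAtTwo E)

/-- The squarefree Gaussian integers `D` with `D ≡ 1 mod 2 + 2i` and `N(D) ≡ 5 mod 8`. -/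
def Parameters : Set GaussianInt :=
  {D | (⟨2, 2⟩ : GaussianInt) ∣ D - 1 ∧ Squarefree D ∧ D.norm % 8 = 5}

/-- The parameters of norm at most `X`. -/
def ParametersUpTo (X : ℕ) : Set GaussianInt := {D | D ∈ Parameters ∧ D.norm ≤ X}

/-- The parameters of norm at most `X` such that, for `K = ℚ(i)` (every number field `K` with an
isomorphism `e` of `ℤ[i]` with its ring of integers), `E_D(K)` is finite and the 2-primary part of
`Ш(E_D/K)` is trivial. -/
def TrivialParameters (X : ℕ) : Set GaussianInt :=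
  {D | D ∈ Parameters ∧ D.norm ≤ X ∧
    ∀ (K : Type) [Field K] [NumberField K] (e : GaussianInt ≃+* 𝓞 K), TrivialAtTwo (curve e D)}

theorem curve_isT {K : Type} [Field K] [NumberField K] (e : GaussianInt ≃+* 𝓞 K)
    {D : GaussianInt} (hD : D ≠ 0) :
    Pool.Agent.Y682.IsT (curve e D) 0 (-(Pool.Agent.Y715.Z.em0 e D) ^ 2) :=
  Pool.Agent.V8H65.GQ.q4_isT (Pool.Agent.Y715.Z.em0_ne e hD)

theorem PS_of {D : GaussianInt} (h : D ∈ Parameters) : Pool.Agent.Y699.PS D :=
  ⟨(Pool.Agent.W164.RC.prim_iff_dvd D).2 h.1, h.2.1⟩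

/-- The algebraic side of the criterion. -/
theorem trivial_iff {D : GaussianInt} (h : D ∈ Parameters) {K : Type} [Field K] [NumberField K]
    (e : GaussianInt ≃+* 𝓞 K) : TrivialAtTwo (curve e D) ↔ Pool.Agent.Y699.Good D := by
  have hD := PS_of h
  have hT := curve_isT e hD.ne
  constructor
  · rintro ⟨hf, hsha⟩
    by_contra hg
    obtain ⟨x, hx0, hx⟩ := Pool.Agent.V8H65.GQ.low e hD h.2.2 hg hT
      (fun Q => Pool.Agent.V8H65.GQ.kill_two e h.1 h.2.2 hf Q)
    exact hx0 (hsha 1 x (by rw [pow_one]; exact hx))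
  · intro hg
    have hc : Nat.card (curve e D).toAffine.Point = 4 :=
      Pool.Agent.Y699.card_pts (Pool.Agent.Y715.Z.em0_ne e hD.ne) two_ne_zero
        (fun x y h => Pool.Agent.Y699.crit_pts hg e h)
    exact ⟨Nat.finite_of_card_ne_zero (by rw [hc]; norm_num),
      fun n x hx => Pool.Agent.V8H65.GQ.sha_pow2 e hg hT n x hx⟩

/-- The formula. -/
theorem twoPart {D : GaussianInt} (h : D ∈ Parameters) {K : Type} [Field K] [NumberField K]
    (e : GaussianInt ≃+* 𝓞 K) : TwoPart (curve e D) := by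
  have hD := PS_of h
  have h5 := h.2.2
  have hD0 : algebraMap (𝓞 K) K (e D) ≠ 0 := Pool.Agent.Y715.Z.em0_ne e hD.ne
  have hP := Pool.Agent.V8H65.GQ.two_of_PS hD
  have hp := Pool.Agent.Y699.fam_PF hD.ne
  obtain ⟨hcf, hcp⟩ := Pool.Agent.V8H65.GQ.cT2_prod e hD
  have htor : torsionOrder (curve e D) = 4 := Pool.Agent.V8H65.GQ.tors_card e hD.ne h.1 h5
  refine ⟨htor, Pool.Agent.Y699.LE hp Finset.univ, Pool.Agent.V8H65.GQ.cT2 e D,
    Pool.Agent.Y699.LE_diff hp _, fun s hs => Pool.Agent.V8H65.GQ.lser2 e hD h5 hs,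
    ⟨fun v => ?_, hcf⟩, fun σ => ?_⟩
  · have hbc : (curve e D).baseChange (v.adicCompletion K) = Pool.Agent.Y715.Z.q4
        (-(algebraMap K (v.adicCompletion K) (Pool.Agent.Y715.Z.em0 e D)) ^ 2) := by
      have h1 := Pool.Agent.Y715.Z.q4_map (algebraMap K (v.adicCompletion K))
        (-(Pool.Agent.Y715.Z.em0 e D) ^ 2)
      rw [map_neg, map_pow] at h1
      exact h1
    rw [hbc]
    exact ⟨Pool.Agent.V8H65.GQ.min2 e hD.sqf h.1 h5 hP v,
      Pool.Agent.V8H65.GQ.tam2 e hD.sqf h.1 h5 hP v⟩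
  · have h4 : σ (curve e D).c₄ / 12 = -4 * (-(σ (Pool.Agent.Y715.Z.em0 e D)) ^ 2) := by
      have h5 : (curve e D).c₄ = -48 * (-(Pool.Agent.Y715.Z.em0 e D) ^ 2) :=
        Pool.Agent.Y715.Z.q4_c₄ _
      rw [h5, map_mul, map_neg, map_neg, map_pow, map_ofNat]
      ring
    have h6 : σ (curve e D).c₆ / 216 = 0 := by
      have h7 : (curve e D).c₆ = 0 := by
        simp only [curve, WeierstrassCurve.c₆, WeierstrassCurve.b₂, WeierstrassCurve.b₄,
          WeierstrassCurve.b₆]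
        ring
      rw [h7, map_zero, zero_div]
    have hδ := Pool.Agent.Y715.Z.norm_emb e σ D
    have hσ1 : σ (Pool.Agent.Y715.Z.em0 e D) ≠ 0 := (map_ne_zero σ).2 hD0
    have hσ0 : -(σ (Pool.Agent.Y715.Z.em0 e D)) ^ 2 ≠ 0 := neg_ne_zero.2 (pow_ne_zero 2 hσ1)
    refine ⟨?_, fun Λ hΛ Γ _ w hw => ?_⟩
    · obtain ⟨Λ, h8, h9⟩ := Pool.Agent.Y715.Z.per_ex hσ0
      exact ⟨Λ, by rw [h4]; exact h8, by rw [h6]; exact h9⟩
    · rw [trivial_iff h e]
      have h10 := Pool.Agent.V8H65.GQ.val_quot2 hD h5 hδ (hΛ.1.trans h4) (hΛ.2.trans h6) w hw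
        (τ := 4) rfl
      have h11 : analyticSha (curve e D) (Pool.Agent.Y699.LE hp Finset.univ)
          (Pool.Agent.V8H65.GQ.cT2 e D) Λ =
          Pool.Agent.Y699.LE hp Finset.univ 1 * 2 * 4 ^ 2 /
          (((2 * |((starRingEnd ℂ) Λ.ω₁ * Λ.ω₂).im| : ℝ) : ℂ) *
            (4 ^ (Pool.Agent.Y699.PD D).card * 2)) := by
        unfold analyticSha period
        rw [Pool.Agent.Y715.Z.sqrt_discr e, htor, hcp]
        push_cast
        norm_num
      rw [h11]
      exact h10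

theorem nrm_iff (D : GaussianInt) (X : ℕ) : H385.nrm D ≤ X ↔ D.norm ≤ X := by
  have h := Pool.Agent.V8H65.XG.nrm_norm D
  omega

theorem cls_iff (D : GaussianInt) : (fun n : ℕ => n % 8 = 5) (H385.nrm D % 16) ↔ D.norm % 8 = 5 := by
  have h := Pool.Agent.V8H65.XG.nrm_norm D
  show H385.nrm D % 16 % 8 = 5 ↔ _
  omega

theorem PS_iff {D : GaussianInt} :
    Pool.Agent.Y699.PS D ↔ (⟨2, 2⟩ : GaussianInt) ∣ D - 1 ∧ Squarefree D :=
  ⟨fun h => ⟨(Pool.Agent.W164.RC.prim_iff_dvd D).1 h.prm, h.sqf⟩,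
    fun h => ⟨(Pool.Agent.W164.RC.prim_iff_dvd D).2 h.1, h.2⟩⟩

theorem parametersUpTo_eq (X : ℕ) : ParametersUpTo X =
    {D : GaussianInt | H385.nrm D ≤ X ∧ Pool.Agent.Y699.PS D ∧
      (fun n : ℕ => n % 8 = 5) (H385.nrm D % 16)} := by
  ext D
  show (D ∈ Parameters ∧ D.norm ≤ X) ↔ (H385.nrm D ≤ X ∧ Pool.Agent.Y699.PS D ∧
    (fun n : ℕ => n % 8 = 5) (H385.nrm D % 16))
  rw [nrm_iff, cls_iff, PS_iff]
  exact ⟨fun ⟨⟨a, b, c⟩, d⟩ => ⟨d, ⟨a, b⟩, c⟩, fun ⟨d, ⟨a, b⟩, c⟩ => ⟨⟨a, b, c⟩, d⟩⟩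

theorem trivialParameters_eq (X : ℕ) : TrivialParameters X =
    {D : GaussianInt | H385.nrm D ≤ X ∧ Pool.Agent.Y699.PS D ∧
      (fun n : ℕ => n % 8 = 5) (H385.nrm D % 16) ∧
      Pool.Agent.V8H65.XG.nS (Pool.Agent.Y699.PD D) = 2 ^ (0 + 1)} := by
  ext D
  show (D ∈ Parameters ∧ D.norm ≤ X ∧ ∀ (K : Type) [Field K] [NumberField K]
    (e : GaussianInt ≃+* 𝓞 K), TrivialAtTwo (curve e D)) ↔
    (H385.nrm D ≤ X ∧ Pool.Agent.Y699.PS D ∧ (fun n : ℕ => n % 8 = 5) (H385.nrm D % 16) ∧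
      Pool.Agent.V8H65.XG.nS (Pool.Agent.Y699.PD D) = 2 ^ (0 + 1))
  rw [nrm_iff, cls_iff, zero_add, pow_one]
  constructor
  · rintro ⟨h, hX, h1⟩
    refine ⟨hX, PS_of h, h.2.2, ?_⟩
    rw [Pool.Agent.V8H65.XG.good_iff (PS_of h) h.2.2]
    exact (trivial_iff h Pool.Agent.V8H65.XG.QI.iso).1 (h1 _ Pool.Agent.V8H65.XG.QI.iso)
  · rintro ⟨hX, hP, h5, h1⟩
    have h : D ∈ Parameters := ⟨(PS_iff.1 hP).1, (PS_iff.1 hP).2, h5⟩
    rw [Pool.Agent.V8H65.XG.good_iff hP h5] at h1
    exact ⟨h, hX, fun K _ _ e => (trivial_iff h e).2 h1⟩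

/-- **Main theorem.**  Let `K = ℚ(i)`.  For every squarefree Gaussian integer `D` with
`D ≡ 1 mod 2 + 2i` and `N(D) ≡ 5 mod 8`, the conjectural order
`L(E_D/K, 1) √|disc K| #E_D(K)_tors² / (Ω ∏ c_v)` of `Ш(E_D/K)`, for `E_D : y² = x³ - D² x`, is
integral at every valuation above `2`, and it is a unit there if and only if `E_D(K)` is finite and
the 2-primary part of `Ш(E_D/K)` is trivial; the proportion of the `D` of norm at most `X` for which
this is the case tends to `∏_{i ≥ 0} (1 - 2^{-(2i+1)})`, which lies between `0.4194` and `0.4195`; and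
these `D` (all of them) have positive density. -/
theorem result :
    (∀ D ∈ Parameters, ∀ (K : Type) [Field K] [NumberField K] (e : GaussianInt ≃+* 𝓞 K),
      TwoPart (curve e D)) ∧
    Filter.Tendsto (fun X : ℕ => ((TrivialParameters X).ncard : ℝ) / ((ParametersUpTo X).ncard : ℝ))
      Filter.atTop (nhds (∏' i : ℕ, (1 - (1 / 2 : ℝ) ^ (2 * i + 1)))) ∧
    0.4194 < ∏' i : ℕ, (1 - (1 / 2 : ℝ) ^ (2 * i + 1)) ∧
    ∏' i : ℕ, (1 - (1 / 2 : ℝ) ^ (2 * i + 1)) < 0.4195 ∧
    ∃ c : ℝ, 0 < c ∧ ∃ X₀ : ℕ, ∀ X : ℕ, X₀ ≤ X → c * X ≤ ((ParametersUpTo X).ncard : ℝ) := by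
  refine ⟨fun D hD K _ _ e => twoPart hD e, ?_, ?_, ?_, ?_⟩
  · have h := Pool.Agent.V8H65.XG.law Pool.Agent.V8H65.XG.low5 0
    have h1 : Pool.Agent.V8H65.XG.cr 0 = ∏' i : ℕ, (1 - (1 / 2 : ℝ) ^ (2 * i + 1)) := by
      unfold Pool.Agent.V8H65.XG.cr
      rw [Finset.range_zero, Finset.prod_empty, div_one]
      rfl
    rw [h1] at h
    refine h.congr fun X => ?_
    rw [trivialParameters_eq, parametersUpTo_eq]
  · exact Pool.Agent.V8H65.XG.t_C2.2.2.2.1
  · exact Pool.Agent.V8H65.XG.t_C2.2.2.2.2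
  · obtain ⟨c, X₀, hc, h⟩ := Pool.Agent.V8H65.XG.low5
    refine ⟨c, hc, X₀, fun X hX => (h X hX).trans ?_⟩
    rw [parametersUpTo_eq, Pool.Agent.V8H65.XG.card_cls (Kc := fun n : ℕ => n % 8 = 5) X]

end Pool.Agent.Results.MP_9ab903_nt.TwoPartExactProportion
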