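import Pool.Agent.V8H65.GR.Main
import Pool.Agent.Y715.Z.Tpr
import Pool.Agent.V8H65.XG.Crt
import Pool.Agent.V8H65.XG.QI

/-!
# The 2-part of the strong conjecture of Birch and Swinnerton-Dyer for the quartic twists
# `y² = x³ + D x` over `ℚ(i)`, with the exact proportion of the twists of rank zero without 2-torsion
# in the Tate-Shafarevich group

`K` is a number field with an isomorphism `e` of the ring `ℤ[i]` of Gaussian integers with its ring
of integers (so `K = ℚ(i)`), `D` a squarefree Gaussian integer with `D ≡ 1 mod 2 + 2i` and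
`N(D) ≡ 13 mod 16`, and `E_D : y² = x³ + D x`.  We prove for every such `D`: `E_D(K)_tors` has two
elements, and the number `L(E_D/K, 1) √|disc K| #E_D(K)_tors² / (Ω ∏ c_v)` is integral at every valuation
of `ℂ` above `2`, and it is a unit at one (equivalently, at all) of these valuations if and only if
`E_D(K)` is finite and the 2-primary part of `Ш(E_D/K)` is trivial; and this happens for the
proportion `∏_{i ≥ 0} (1 - 2^{-(2i+1)}) = 0.4194...` of these `D`, ordered by norm, exactly.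

The congruence for the central values is from the library of helper699, the descent by an isogeny of
degree two from the library of helper682, the upper bound for the 2-primary part of `Ш`, the Tamagawa
numbers, the periods and the `L`-series from the library of helper715.  New are the exact
proportion (`Pool/Agent/V8H65/XG`), the torsion for all `D`, and the converse: the construction of an
element of order two of `Ш(E_D/K)` if `E_D(K)` is finite and the criterion fails
(`Pool/Agent/V8H65/GR`).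
-/

set_option autoImplicit false

namespace Pool.Agent.Results.MP_9ab903_nt.TwoPartQuarticExact

open NumberField IsDedekindDomain

/-- The curve `y² = x³ + D x`. -/
noncomputable def curve {K : Type} [Field K] [NumberField K] (e : GaussianInt ≃+* 𝓞 K)
    (D : GaussianInt) : WeierstrassCurve K :=
  ⟨0, 0, 0, algebraMap (𝓞 K) K (e D), 0⟩

open scoped Classical in
/-- The equation `E` is minimal at every finite place `v`, and `c v` is the Tamagawa number of `E` at
`v`: the index in `E(K_v)` of the subgroup of the points of nonsingular reduction. -/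
def IsTamagawa {K : Type} [Field K] [NumberField K] (E : WeierstrassCurve K)
    (c : HeightOneSpectrum (𝓞 K) → ℕ) : Prop :=
  (∀ v : HeightOneSpectrum (𝓞 K),
    (E.baseChange (v.adicCompletion K)).IsMinimal (v.adicCompletionIntegers K) ∧
    ∃ H : AddSubgroup (E.baseChange (v.adicCompletion K)).toAffine.Point,
      (∀ P, P ∈ H ↔ Pool.Agent.Y696.NonsingRed Valued.v (E.baseChange (v.adicCompletion K)) P) ∧
      H.index = c v) ∧
  {v | c v ≠ 1}.Finite

/-- `Λ` is the lattice of periods of the differential `dx / (2y + a₁x + a₃)` of the curve `E`, embedded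
in the complex numbers by `σ`. -/
def IsPeriodLattice {K : Type} [Field K] (E : WeierstrassCurve K) (σ : K →+* ℂ)
    (Λ : PeriodPair) : Prop :=
  Λ.g₂ = σ E.c₄ / 12 ∧ Λ.g₃ = σ E.c₆ / 216

/-- Twice the area of a fundamental parallelogram of the lattice. -/
noncomputable def period (Λ : PeriodPair) : ℝ := 2 * |((starRingEnd ℂ) Λ.ω₁ * Λ.ω₂).im|

open scoped Classical in
/-- The order of the torsion subgroup of `E(K)`. -/
noncomputable def torsionOrder {K : Type} [Field K] (E : WeierstrassCurve K) : ℕ :=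
  Nat.card (AddCommGroup.torsion E.toAffine.Point)

/-- The conjectural order `L(E/K, 1) √|disc K| #E(K)_tors² / (Ω ∏ c_v)` of `Ш(E/K)` (if `E(K)` is
finite), for a curve `E` over an imaginary quadratic field `K`, made from the continuation `L` of the
`L`-series, the Tamagawa numbers `c` and the lattice of periods `Λ`. -/
noncomputable def analyticSha {K : Type} [Field K] [NumberField K] (E : WeierstrassCurve K)
    (L : ℂ → ℂ) (c : HeightOneSpectrum (𝓞 K) → ℕ) (Λ : PeriodPair) : ℂ :=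
  L 1 * (Real.sqrt |(discr K : ℝ)| : ℝ) * (torsionOrder E : ℂ) ^ 2 /
    ((period Λ : ℂ) * ((∏ᶠ v, c v : ℕ) : ℂ))

/-- `E(K)` is finite and the 2-primary part of `Ш(E/K)` is trivial. -/
def TrivialAtTwo {K : Type} [Field K] [NumberField K] (E : WeierstrassCurve K) : Prop :=
  Finite E.toAffine.Point ∧
  ∀ (n : ℕ) (x : Pool.Agent.TH841.NF.D.Sha E), 2 ^ n • x = 0 → x = 0

/-- For a curve `E` over an imaginary quadratic field `K`: `E(K)_tors` has two elements, the
`L`-series of `E` has an entire continuation, and the conjectural order of `Ш(E/K)` is integral at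
every valuation `w` of the field of complex numbers with `w 2 < 1`, and it is a unit at `w` if
and only if `E(K)` is finite and the 2-primary part of `Ш(E/K)` is trivial. -/
def TwoPart {K : Type} [Field K] [NumberField K] (E : WeierstrassCurve K) : Prop :=
  torsionOrder E = 2 ∧
  ∃ (L : ℂ → ℂ) (c : HeightOneSpectrum (𝓞 K) → ℕ),
    Differentiable ℂ L ∧
    (∀ s : ℂ, 3 / 2 < s.re →
      LSeriesSummable ((fun n : ℤ => (n : ℂ)) ∘ E.LFunction) s ∧ L s = E.LSeries s) ∧
    IsTamagawa E c ∧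
    ∀ σ : K →+* ℂ, (∃ Λ : PeriodPair, IsPeriodLattice E σ Λ) ∧
      ∀ Λ : PeriodPair, IsPeriodLattice E σ Λ →
        ∀ (Γ : Type) [LinearOrderedCommGroupWithZero Γ] (w : Valuation ℂ Γ), w 2 < 1 →
          w (analyticSha E L c Λ) ≤ 1 ∧ (w (analyticSha E L c Λ) = 1 ↔ TrivialAtTwo E)

/-- The squarefree Gaussian integers `D` with `D ≡ 1 mod 2 + 2i` and `N(D) ≡ 13 mod 16`. -/
def Parameters : Set GaussianInt :=
  {D | (⟨2, 2⟩ : GaussianInt) ∣ D - 1 ∧ Squarefree D ∧ D.norm % 16 = 13}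

/-- The parameters of norm at most `X`. -/
def ParametersUpTo (X : ℕ) : Set GaussianInt := {D | D ∈ Parameters ∧ D.norm ≤ X}

/-- The parameters of norm at most `X` such that, for `K = ℚ(i)` (every number field `K` with an
isomorphism `e` of `ℤ[i]` with its ring of integers), `E_D(K)` is finite and the 2-primary part of
`Ш(E_D/K)` is trivial. -/
def TrivialParameters (X : ℕ) : Set GaussianInt :=
  {D | D ∈ Parameters ∧ D.norm ≤ X ∧
    ∀ (K : Type) [Field K] [NumberField K] (e : GaussianInt ≃+* 𝓞 K), TrivialAtTwo (curve e D)}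

theorem curve_isT {K : Type} [Field K] [NumberField K] (e : GaussianInt ≃+* 𝓞 K)
    {D : GaussianInt} (hD : D ≠ 0) :
    Pool.Agent.Y682.IsT (curve e D) 0 (Pool.Agent.Y715.Z.em0 e D) :=
  Pool.Agent.V8H65.GR.q4_isT e hD

theorem PS_of {D : GaussianInt} (h : D ∈ Parameters) : Pool.Agent.Y699.PS D :=
  ⟨(Pool.Agent.W164.RC.prim_iff_dvd D).2 h.1, h.2.1⟩

/-- The algebraic side of the criterion. -/
theorem trivial_iff {D : GaussianInt} (h : D ∈ Parameters) {K : Type} [Field K] [NumberField K]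
    (e : GaussianInt ≃+* 𝓞 K) : TrivialAtTwo (curve e D) ↔ Pool.Agent.Y699.Good D := by
  have hD := PS_of h
  have h13 := h.2.2
  have hT := curve_isT e hD.ne
  constructor
  · rintro ⟨hf, hsha⟩
    by_contra hg
    obtain ⟨x, hx0, hx⟩ := Pool.Agent.V8H65.GR.low e hD (Pool.Agent.V8H65.GR.five_of h13) hg hT
      (fun Q => Pool.Agent.V8H65.GR.kill_two e hD h13 hf Q)
    exact hx0 (hsha 1 x (by rw [pow_one]; exact hx))
  · intro hg
    have hg4 := Pool.Agent.V8H65.GR.good4_of h13 hg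
    have hc : Nat.card (curve e D).toAffine.Point = 2 :=
      Pool.Agent.Y699.card_pts4 (Pool.Agent.Y699.neg_not_sq hg4 e) two_ne_zero
        (fun x y h => Pool.Agent.Y699.crit_pts4 hg4 e h)
    exact ⟨Nat.finite_of_card_ne_zero (by rw [hc]; norm_num),
      fun n x hx => Pool.Agent.Y715.Z.sha_pow e hg4 hT n x hx⟩

/-- The formula. -/
theorem twoPart {D : GaussianInt} (h : D ∈ Parameters) {K : Type} [Field K] [NumberField K]
    (e : GaussianInt ≃+* 𝓞 K) : TwoPart (curve e D) := by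
  have hD := PS_of h
  have h13 := h.2.2
  have hc2 := Pool.Agent.Y699.comp_mod hD.prm h13
  have hD0 : algebraMap (𝓞 K) K (e D) ≠ 0 := Pool.Agent.Y715.Z.em0_ne e hD.ne
  have hP := Pool.Agent.V8H65.GQ.two_of_PS hD
  have hp := Pool.Agent.Y699.fam_PF hD.ne
  obtain ⟨hcf, hcp⟩ := Pool.Agent.Y715.Z.cT_prod e hD
  have htor : torsionOrder (curve e D) = 2 := Pool.Agent.V8H65.GR.tors_card e hD h13
  refine ⟨htor, Pool.Agent.Y699.LG (Pool.Agent.Y699.XX4 hp Finset.univ Pool.Agent.Y699.on1),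
    Pool.Agent.Y715.Z.cT e D,
    Pool.Agent.Y699.LG_diff (Pool.Agent.Y699.XH hp (Pool.Agent.V8H65.GR.sum_wq' hD h13)),
    fun s hs => Pool.Agent.V8H65.GR.lser e hD h13 hs, ⟨fun v => ?_, hcf⟩, fun σ => ?_⟩
  · have hbc : (curve e D).baseChange (v.adicCompletion K) = Pool.Agent.Y715.Z.q4
        (algebraMap K (v.adicCompletion K) (Pool.Agent.Y715.Z.em0 e D)) :=
      Pool.Agent.Y715.Z.q4_map _ _
    rw [hbc]
    exact ⟨Pool.Agent.Y715.Z.min4 e hD.sqf hc2.1 hc2.2 hP v,
      Pool.Agent.Y715.Z.tam e hD.sqf hc2.1 hc2.2 hP v⟩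
  · have h4 : σ (curve e D).c₄ / 12 = -4 * σ (Pool.Agent.Y715.Z.em0 e D) := by
      have h5 : (curve e D).c₄ = -48 * Pool.Agent.Y715.Z.em0 e D := Pool.Agent.Y715.Z.q4_c₄ _
      rw [h5, map_mul, map_neg, map_ofNat]
      ring
    have h6 : σ (curve e D).c₆ / 216 = 0 := by
      have h7 : (curve e D).c₆ = 0 := by
        simp only [curve, WeierstrassCurve.c₆, WeierstrassCurve.b₂, WeierstrassCurve.b₄,
          WeierstrassCurve.b₆]
        ring
      rw [h7, map_zero, zero_div]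
    have hδ := Pool.Agent.Y715.Z.norm_emb e σ D
    have hσ0 : σ (Pool.Agent.Y715.Z.em0 e D) ≠ 0 := by
      rw [Ne, map_eq_zero]; exact hD0
    refine ⟨?_, fun Λ hΛ Γ _ w hw => ?_⟩
    · obtain ⟨Λ, h8, h9⟩ := Pool.Agent.Y715.Z.per_ex hσ0
      exact ⟨Λ, by rw [h4]; exact h8, by rw [h6]; exact h9⟩
    · rw [trivial_iff h e]
      have h10 := Pool.Agent.V8H65.GR.val_quot hD h13 hδ (hΛ.1.trans h4) (hΛ.2.trans h6) w hw
      have h11 : analyticSha (curve e D)
          (Pool.Agent.Y699.LG (Pool.Agent.Y699.XX4 hp Finset.univ Pool.Agent.Y699.on1))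
          (Pool.Agent.Y715.Z.cT e D) Λ =
          Pool.Agent.Y699.LG (Pool.Agent.Y699.XX4 hp Finset.univ Pool.Agent.Y699.on1) 1 * 2 * 4 /
          (((2 * |((starRingEnd ℂ) Λ.ω₁ * Λ.ω₂).im| : ℝ) : ℂ) *
            2 ^ (Pool.Agent.Y699.PD D).card) := by
        unfold analyticSha period
        rw [Pool.Agent.Y715.Z.sqrt_discr e, htor, hcp]
        push_cast
        norm_num
      rw [h11]
      exact h10

theorem nrm_iff (D : GaussianInt) (X : ℕ) : H385.nrm D ≤ X ↔ D.norm ≤ X := by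
  have h := Pool.Agent.V8H65.XG.nrm_norm D
  omega

theorem cls_iff (D : GaussianInt) : (fun n : ℕ => n = 13) (H385.nrm D % 16) ↔ D.norm % 16 = 13 := by
  have h := Pool.Agent.V8H65.XG.nrm_norm D
  show H385.nrm D % 16 = 13 ↔ _
  omega

theorem PS_iff {D : GaussianInt} :
    Pool.Agent.Y699.PS D ↔ (⟨2, 2⟩ : GaussianInt) ∣ D - 1 ∧ Squarefree D :=
  ⟨fun h => ⟨(Pool.Agent.W164.RC.prim_iff_dvd D).1 h.prm, h.sqf⟩,
    fun h => ⟨(Pool.Agent.W164.RC.prim_iff_dvd D).2 h.1, h.2⟩⟩

theorem parametersUpTo_eq (X : ℕ) : ParametersUpTo X =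
    {D : GaussianInt | H385.nrm D ≤ X ∧ Pool.Agent.Y699.PS D ∧
      (fun n : ℕ => n = 13) (H385.nrm D % 16)} := by
  ext D
  show (D ∈ Parameters ∧ D.norm ≤ X) ↔ (H385.nrm D ≤ X ∧ Pool.Agent.Y699.PS D ∧
    (fun n : ℕ => n = 13) (H385.nrm D % 16))
  rw [nrm_iff, cls_iff, PS_iff]
  exact ⟨fun ⟨⟨a, b, c⟩, d⟩ => ⟨d, ⟨a, b⟩, c⟩, fun ⟨d, ⟨a, b⟩, c⟩ => ⟨⟨a, b, c⟩, d⟩⟩

theorem trivialParameters_eq (X : ℕ) : TrivialParameters X =
    {D : GaussianInt | H385.nrm D ≤ X ∧ Pool.Agent.Y699.PS D ∧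
      (fun n : ℕ => n = 13) (H385.nrm D % 16) ∧
      Pool.Agent.V8H65.XG.nS (Pool.Agent.Y699.PD D) = 2 ^ (0 + 1)} := by
  ext D
  show (D ∈ Parameters ∧ D.norm ≤ X ∧ ∀ (K : Type) [Field K] [NumberField K]
    (e : GaussianInt ≃+* 𝓞 K), TrivialAtTwo (curve e D)) ↔
    (H385.nrm D ≤ X ∧ Pool.Agent.Y699.PS D ∧ (fun n : ℕ => n = 13) (H385.nrm D % 16) ∧
      Pool.Agent.V8H65.XG.nS (Pool.Agent.Y699.PD D) = 2 ^ (0 + 1))
  rw [nrm_iff, cls_iff, zero_add, pow_one]
  constructor
  · rintro ⟨h, hX, h1⟩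
    refine ⟨hX, PS_of h, h.2.2, ?_⟩
    rw [Pool.Agent.V8H65.XG.good_iff (PS_of h) (Pool.Agent.V8H65.GR.five_of h.2.2)]
    exact (trivial_iff h Pool.Agent.V8H65.XG.QI.iso).1 (h1 _ Pool.Agent.V8H65.XG.QI.iso)
  · rintro ⟨hX, hP, h5, h1⟩
    have h : D ∈ Parameters := ⟨(PS_iff.1 hP).1, (PS_iff.1 hP).2, h5⟩
    rw [Pool.Agent.V8H65.XG.good_iff hP (Pool.Agent.V8H65.GR.five_of h5)] at h1
    exact ⟨h, hX, fun K _ _ e => (trivial_iff h e).2 h1⟩

/-- **Main theorem.**  Let `K = ℚ(i)`.  For every squarefree Gaussian integer `D` with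
`D ≡ 1 mod 2 + 2i` and `N(D) ≡ 13 mod 16`, the group `E_D(K)_tors` has two elements, and the
conjectural order `L(E_D/K, 1) √|disc K| #E_D(K)_tors² / (Ω ∏ c_v)` of `Ш(E_D/K)`, for
`E_D : y² = x³ + D x`, is integral at every valuation above `2`, and it is a unit there if and only if
`E_D(K)` is finite and the 2-primary part of `Ш(E_D/K)` is trivial; the proportion of the `D` of norm
at most `X` for which this is the case tends to `∏_{i ≥ 0} (1 - 2^{-(2i+1)})`, which lies between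
`0.4194` and `0.4195`; and these `D` (all of them) have positive density. -/
theorem result :
    (∀ D ∈ Parameters, ∀ (K : Type) [Field K] [NumberField K] (e : GaussianInt ≃+* 𝓞 K),
      TwoPart (curve e D)) ∧
    Filter.Tendsto (fun X : ℕ => ((TrivialParameters X).ncard : ℝ) / ((ParametersUpTo X).ncard : ℝ))
      Filter.atTop (nhds (∏' i : ℕ, (1 - (1 / 2 : ℝ) ^ (2 * i + 1)))) ∧
    0.4194 < ∏' i : ℕ, (1 - (1 / 2 : ℝ) ^ (2 * i + 1)) ∧
    ∏' i : ℕ, (1 - (1 / 2 : ℝ) ^ (2 * i + 1)) < 0.4195 ∧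
    ∃ c : ℝ, 0 < c ∧ ∃ X₀ : ℕ, ∀ X : ℕ, X₀ ≤ X → c * X ≤ ((ParametersUpTo X).ncard : ℝ) := by
  refine ⟨fun D hD K _ _ e => twoPart hD e, ?_, ?_, ?_, ?_⟩
  · have h := Pool.Agent.V8H65.XG.law Pool.Agent.V8H65.XG.low13 0
    have h1 : Pool.Agent.V8H65.XG.cr 0 = ∏' i : ℕ, (1 - (1 / 2 : ℝ) ^ (2 * i + 1)) := by
      unfold Pool.Agent.V8H65.XG.cr
      rw [Finset.range_zero, Finset.prod_empty, div_one]
      rfl
    rw [h1] at h
    refine h.congr fun X => ?_
    rw [trivialParameters_eq, parametersUpTo_eq]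
  · exact Pool.Agent.V8H65.XG.t_C2.2.2.2.1
  · exact Pool.Agent.V8H65.XG.t_C2.2.2.2.2
  · obtain ⟨c, X₀, hc, h⟩ := Pool.Agent.V8H65.XG.low13
    refine ⟨c, hc, X₀, fun X hX => (h X hX).trans ?_⟩
    rw [parametersUpTo_eq, Pool.Agent.V8H65.XG.card_cls (Kc := fun n : ℕ => n = 13) X]

end Pool.Agent.Results.MP_9ab903_nt.TwoPartQuarticExact
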